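import Mathlib
import Pool.Agent.Results.MP_e9eb55_nt.AlmostAllN
import Pool.Agent.K3h95.FC.F4

/-!
# The twisted Elliott-Halberstam bound with one arbitrary residue class for each modulus, for almost all `N`

The conjecture of the problem is about the class `n ≡ N` modulo each `q`; the twisted hypothesis of Huang and Li has the
maximum over all reduced classes `a`. Here one residue class `a_q` is chosen for each modulus `q`, in an arbitrary way (for
instance a fixed integer `a` for all `q`), not depending on `N`. For almost all `N` the sum over all moduli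
`q ≤ N (log N) ^ (-B)` of the maximum over `y ≤ N` of the discrepancy of `β(n) Λ(n) g(N - n)` in the class `a_q` is at most
`N (log N) ^ (-A)`; more strongly, the sum of `q` times the square of the maximum is at most `N ^ 2 (log N) ^ (-2 A)`. The
bound for the number of exceptional `N ≤ X` is uniform in the classes and in the weight `β`.

Idea: by Parseval's identity the mean square over `N` is a sum over the pairs `n ≡ n' ≡ a_q` of the correlations of the
Möbius function with shift `n - n'`, a multiple of `q`. So the sum over `q` of `q` times the mean squares is at most a sum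
over the shifts `h` of the absolute values of the correlations with the number of divisors of `h`. The correlations are small
in mean square by Davenport's bound. The maxima are treated with dyadic blocks.
-/

set_option autoImplicit false

namespace Pool.Agent.Results.MP_e9eb55_nt.FixedClasses
open Finset
open AlmostAllN (g₁ g₂ one_le_log)
open Pool.Agent.K3h95.MS (P mP Dd mD mD_nonneg)
open Pool.Agent.K3h95.FC (VF WF)

/-- the sum of `β(n) Λ(n) g(N - n)` over `1 ≤ n < y` with `n ≡ a (mod q)` -/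
noncomputable def classSum (β g : ℕ → ℝ) (q a N y : ℕ) : ℝ :=
  ∑ n ∈ (Finset.Ico 1 y).filter (fun n => n ≡ a [MOD q]), β n * ArithmeticFunction.vonMangoldt n * g (N - n)

/-- the maximum over `0 ≤ y ≤ N` of `|classSum β g q a N y|` -/
noncomputable def classMax (β g : ℕ → ℝ) (q a N : ℕ) : ℝ :=
  (Finset.range (N + 1)).sup' ⟨0, by simp⟩ (fun y => |classSum β g q a N y|)

/-- the maximum over `0 ≤ y ≤ N` of `|classSum β g q a N y - (1 / φ(q)) * classSum β g 1 0 N y|`; the second sum is the one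
over all `1 ≤ n < y` -/
noncomputable def discMax (β g : ℕ → ℝ) (q a N : ℕ) : ℝ :=
  (Finset.range (N + 1)).sup' ⟨0, by simp⟩
    (fun y => |classSum β g q a N y - 1 / (Nat.totient q : ℝ) * classSum β g 1 0 N y|)

lemma classSum_eq (β g : ℕ → ℝ) (q a N y : ℕ) : classSum β g q a N y = P β g q (a % q) N y := rfl

lemma classMax_eq (β g : ℕ → ℝ) (q a N : ℕ) : classMax β g q a N = mP β g q (a % q) N := rfl

lemma discMax_eq (β g : ℕ → ℝ) (q a N : ℕ) : discMax β g q a N = mD β g q (a % q) N := rfl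

lemma coprime_mod (a q : ℕ) : (a % q).Coprime q ↔ a.Coprime q := by
  unfold Nat.Coprime
  rw [← Nat.gcd_rec, Nat.gcd_comm]

/-- the bounds for one `N` -/
def Good (β g : ℕ → ℝ) (a : ℕ → ℕ) (A B N : ℕ) : Prop :=
  ∑ q ∈ Finset.Icc 1 ⌊(N : ℝ) / Real.log N ^ B⌋₊, (q : ℝ) * classMax β g q (a q) N ^ 2 ≤
      (N : ℝ) ^ 2 / Real.log N ^ (2 * A) ∧
  ∑ q ∈ (Finset.Icc 1 ⌊(N : ℝ) / Real.log N ^ B⌋₊).filter (fun q => (a q).Coprime q),
      (q : ℝ) * discMax β g q (a q) N ^ 2 ≤ (N : ℝ) ^ 2 / Real.log N ^ (2 * A) ∧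
  ∑ q ∈ (Finset.Icc 1 ⌊(N : ℝ) / Real.log N ^ B⌋₊).filter (fun q => (a q).Coprime q),
      discMax β g q (a q) N ≤ (N : ℝ) / Real.log N ^ A

lemma good_of (β g : ℕ → ℝ) (a : ℕ → ℕ) (A B N : ℕ) (hN : 8 ≤ N)
    (hV : VF β g (fun q => a q % q) N ⌊(N : ℝ) / Real.log N ^ B⌋₊ ≤ (N : ℝ) ^ 2 / Real.log N ^ (2 * A + 2))
    (hW : WF β g (fun q => a q % q) N ⌊(N : ℝ) / Real.log N ^ B⌋₊ ≤ (N : ℝ) ^ 2 / Real.log N ^ (2 * A + 2)) :
    Good β g a A B N := by
  have hL := one_le_log hN
  set L := Real.log N with hLdef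
  have hL0 : 0 < L := by linarith
  have hN0 : (0 : ℝ) < N := by exact_mod_cast (by omega : 0 < N)
  have h1 : (N : ℝ) ^ 2 / L ^ (2 * A + 2) ≤ (N : ℝ) ^ 2 / L ^ (2 * A) := by
    apply div_le_div_of_nonneg_left (by positivity) (by positivity)
    exact pow_le_pow_right₀ (by linarith) (by omega)
  set Q := ⌊(N : ℝ) / L ^ B⌋₊ with hQ
  have hW' : ∑ q ∈ (Finset.Icc 1 Q).filter (fun q => (a q).Coprime q),
      (q : ℝ) * discMax β g q (a q) N ^ 2 ≤ (N : ℝ) ^ 2 / L ^ (2 * A + 2) := by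
    refine le_trans (le_of_eq ?_) hW
    unfold WF
    apply sum_congr _ (fun _ _ => rfl)
    apply filter_congr
    intro q _
    exact (coprime_mod (a q) q).symm
  refine ⟨hV.trans h1, hW'.trans h1, ?_⟩
  set S := (Finset.Icc 1 Q).filter (fun q => (a q).Coprime q) with hS
  have hmem : ∀ q ∈ S, 1 ≤ q := by
    intro q hq
    rw [hS, mem_filter, mem_Icc] at hq
    exact hq.1.1
  have h2 : (∑ q ∈ S, discMax β g q (a q) N) ^ 2 ≤
      (∑ q ∈ S, 1 / (q : ℝ)) * ∑ q ∈ S, (q : ℝ) * discMax β g q (a q) N ^ 2 := by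
    apply sum_sq_le_sum_mul_sum_of_sq_le_mul
    · intro q _
      positivity
    · intro q _
      positivity
    · intro q hq
      have hq0 : (q : ℝ) ≠ 0 := by exact_mod_cast (by have := hmem q hq; omega : q ≠ 0)
      apply le_of_eq
      field_simp
  have h3 : ∑ q ∈ S, 1 / (q : ℝ) ≤ L ^ 2 := by
    rcases Nat.eq_zero_or_pos Q with h0 | h0
    · have : S = ∅ := by
        rw [hS, h0]
        rfl
      rw [this, sum_empty]
      positivity
    · have h4 := Pool.Agent.H398R2.BV.sum_card_pow_div 0 Q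
      simp only [pow_zero, pow_one] at h4
      have h5 : ∑ q ∈ S, 1 / (q : ℝ) ≤ ∑ q ∈ Icc 1 Q, 1 / (q : ℝ) :=
        sum_le_sum_of_subset_of_nonneg (filter_subset _ _) (fun _ _ _ => by positivity)
      have h6 : (Q : ℝ) ≤ N := by
        refine (Nat.floor_le (by positivity)).trans (div_le_self hN0.le ?_)
        exact one_le_pow₀ (by linarith)
      have h7 := Real.log_le_log (show (0 : ℝ) < Q by exact_mod_cast h0) h6
      have h8 : 1 + Real.log Q ≤ L ^ 2 := by nlinarith
      exact (h5.trans h4).trans h8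
  have hs0 : 0 ≤ ∑ q ∈ S, (q : ℝ) * discMax β g q (a q) N ^ 2 := sum_nonneg fun _ _ => by positivity
  have h4 : (∑ q ∈ S, discMax β g q (a q) N) ^ 2 ≤ ((N : ℝ) / L ^ A) ^ 2 := by
    refine h2.trans ?_
    calc (∑ q ∈ S, 1 / (q : ℝ)) * ∑ q ∈ S, (q : ℝ) * discMax β g q (a q) N ^ 2 ≤
        L ^ 2 * ((N : ℝ) ^ 2 / L ^ (2 * A + 2)) := mul_le_mul h3 hW' hs0 (by positivity)
      _ = _ := by
          rw [pow_add, pow_mul']
          field_simp
  have h5 : 0 ≤ ∑ q ∈ S, discMax β g q (a q) N := sum_nonneg fun q _ => mD_nonneg β g q (a q % q) N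
  exact (pow_le_pow_iff_left₀ h5 (by positivity) two_ne_zero).1 h4

open Classical in
/-- **Theorem.** For all `A`, `k` there is `X₀` such that for all `X ≥ X₀`, all weights `β` with `|β(n)| ≤ 1` and every choice
of residue classes `a q` modulo `q`: for all `N ≤ X` with at most `X (log X) ^ (-k)` exceptions, and for both weights `g` of
the problem, with the moduli `q ≤ N (log N) ^ (-(2 A + 3 k + 26))`: (1) the sum of `q * classMax β g q (a q) N ^ 2` is at most
`N ^ 2 (log N) ^ (-2 A)`, (2) the sum of `q * discMax β g q (a q) N ^ 2` over the `q` coprime to `a q` is at most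
`N ^ 2 (log N) ^ (-2 A)`, (3) the sum of `discMax β g q (a q) N` over the `q` coprime to `a q` is at most
`N (log N) ^ (-A)`. -/
theorem result (A k : ℕ) : ∃ X₀ : ℕ, ∀ X : ℕ, X₀ ≤ X → ∀ β : ℕ → ℝ, (∀ n, |β n| ≤ 1) → ∀ a : ℕ → ℕ,
    (((Finset.Icc 1 X).filter (fun N : ℕ => ¬ ∀ g : ℕ → ℝ, (g = g₁ ∨ g = g₂) →
      Good β g a A (2 * A + 3 * k + 26) N)).card : ℝ) ≤ X / Real.log X ^ k := by
  obtain ⟨X0, hX0⟩ := Pool.Agent.K3h95.FC.few_badF (2 * A + 2) (k + 1)
  obtain ⟨X1, hX1⟩ := Pool.Agent.R311.DEH.low_N (k + 1)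
  obtain ⟨X2, hX2⟩ := Filter.eventually_atTop.1 (Pool.Agent.R311.DEH.tlog.eventually_ge_atTop 16)
  refine ⟨X0 + X1 + X2 + 8, fun X hX β hβ a => ?_⟩
  have h1 := hX0 X (by omega) β g₁ (fun q => a q % q) (by simp [Nat.mod_one]) hβ (Or.inl rfl)
  have h2 := hX0 X (by omega) β g₂ (fun q => a q % q) (by simp [Nat.mod_one]) hβ (Or.inr rfl)
  have h3 := hX1 X (by omega)
  have hL := hX2 X (by omega)
  set L := Real.log X with hLdef
  have hk : 2 * A + 2 + 3 * (k + 1) + 21 = 2 * A + 3 * k + 26 := by ring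
  rw [hk] at h1 h2
  set B := 2 * A + 3 * k + 26 with hB
  have hX0' : (0 : ℝ) < X := by exact_mod_cast (by omega : 0 < X)
  have hsub : (Finset.Icc 1 X).filter (fun N : ℕ => ¬ ∀ g : ℕ → ℝ, (g = g₁ ∨ g = g₂) → Good β g a A B N) ⊆
      ((Finset.Icc 1 X).filter (fun N : ℕ =>
        ¬ (VF β g₁ (fun q => a q % q) N ⌊(N : ℝ) / Real.log N ^ B⌋₊ ≤ N ^ 2 / Real.log N ^ (2 * A + 2) ∧
        WF β g₁ (fun q => a q % q) N ⌊(N : ℝ) / Real.log N ^ B⌋₊ ≤ N ^ 2 / Real.log N ^ (2 * A + 2))) ∪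
      (Finset.Icc 1 X).filter (fun N : ℕ =>
        ¬ (VF β g₂ (fun q => a q % q) N ⌊(N : ℝ) / Real.log N ^ B⌋₊ ≤ N ^ 2 / Real.log N ^ (2 * A + 2) ∧
        WF β g₂ (fun q => a q % q) N ⌊(N : ℝ) / Real.log N ^ B⌋₊ ≤ N ^ 2 / Real.log N ^ (2 * A + 2)))) ∪
      Finset.range 8 := by
    intro N hN
    rw [mem_filter] at hN
    rw [mem_union, mem_union, mem_filter, mem_filter, mem_range]
    by_contra hcon
    push Not at hcon
    obtain ⟨⟨c1, c2⟩, c3⟩ := hcon
    apply hN.2
    rintro g (rfl | rfl)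
    · exact good_of β g₁ a A B N c3 (c1 hN.1).1 (c1 hN.1).2
    · exact good_of β g₂ a A B N c3 (c2 hN.1).1 (c2 hN.1).2
  have h4 := (card_le_card hsub).trans ((card_union_le _ _).trans (Nat.add_le_add_right (card_union_le _ _) _))
  rw [card_range] at h4
  have h5 : (((Finset.Icc 1 X).filter (fun N : ℕ => ¬ ∀ g : ℕ → ℝ, (g = g₁ ∨ g = g₂) →
      Good β g a A B N)).card : ℝ) ≤ X / L ^ (k + 1) + X / L ^ (k + 1) + 8 := by
    refine le_trans ?_ (add_le_add (add_le_add h1 h2) (le_refl (8 : ℝ)))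
    exact_mod_cast h4
  refine h5.trans ?_
  have h6 : (8 : ℝ) ≤ X / L ^ (k + 1) := by
    have e1 : X / (1 + L) ^ (k + 1) ≤ X / L ^ (k + 1) := by
      apply div_le_div_of_nonneg_left hX0'.le (by positivity)
      exact pow_le_pow_left₀ (by linarith) (by linarith) _
    have e2 := Real.add_one_le_exp (L / 2)
    linarith
  have h7 : (X : ℝ) / L ^ (k + 1) = X / L ^ k / L := by
    rw [pow_succ, div_div]
  have h8 : (X : ℝ) / L ^ k / L ≤ X / L ^ k / 3 :=
    div_le_div_of_nonneg_left (by positivity) (by norm_num) (by linarith)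
  rw [h7] at h6 ⊢
  linarith

end Pool.Agent.Results.MP_e9eb55_nt.FixedClasses
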