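import Mathlib
import Pool.Agent.K3h95.LL.A8
import Pool.Agent.Results.MP_e9eb55_nt.AlmostAllN

/-!
# The limit of the level in the diagonal Möbius-twisted Elliott-Halberstam conjecture, for every `N`

The starting result `AlmostAllN` bounds the discrepancy `D_g(N; Q)` for `Q = N exp (-(log N) ^ c)` and almost all `N`. Here
it is shown that at the levels `Q = N / (log N) ^ B` the discrepancy is not small, for EVERY large `N`:
`D_g(N; N / (log N) ^ B) ≥ N / (log N) ^ (B + 5)` for both weights. So the levels `N ^ θ` of the conjecture cannot be replaced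
by `N / (log N) ^ B`, whatever `B` is, not even for infinitely many `N`.

Moreover the main term which is subtracted in `D_g(N; Q)` can be omitted at all levels `Q ≥ 4 (log N) ^ 2`, for every `N`: up
to powers of `log N`, the discrepancy is the sum of the absolute values of the twisted sums themselves, that of the modulus
`q = 1` included. So the conjecture at ONE level `N ^ θ`, `θ > 0`, contains the bound for the Möbius-twisted Goldbach sum
`∑_{n < N} Λ(n) μ(N - n)`.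

Idea of the lower bound. For the `q` with exactly `j` multiples below `N` the sum of `μ(q) ∑_k Λ(N - q k) μ(q k)` is, by the
theorem of Siegel and Walfisz, the number of these `q` times `∑_{k ≤ j} w(k)`, where `w(k)` depends on `k` and `N` only. From
`j = p - 1` to `j = p`, `p` a prime not dividing `N`, the sum over `k` changes by `w(p)`, which is not small. So the sums for
`j = p - 1` and `j = p` are not both small. The full sum (`q = 1`) is controlled with the modulus `q = r ^ 2`, `r` a prime not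
dividing `N`, for which all terms of the twisted sum vanish.
-/

set_option autoImplicit false

namespace Pool.Agent.Results.MP_e9eb55_nt.LevelLimit

open Finset Filter
open AlmostAllN (g₁ g₂ disc twistedSum)

/-- the sum over the moduli `1 ≤ q ≤ Q` coprime to `N` of the absolute value of `twistedSum g q N`: the discrepancy `disc`
without the subtracted main term -/
noncomputable def total (g : ℕ → ℝ) (N : ℕ) (Q : ℝ) : ℝ :=
  ∑ q ∈ (Finset.Icc 1 ⌊Q⌋₊).filter (fun q => q.Coprime N), |twistedSum g q N|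

/-- `F g N` is `O_A (N (log N) ^ (-A))` for every `A > 0`, for both weights `g` -/
def Small (F : (ℕ → ℝ) → ℕ → ℝ) : Prop :=
  ∀ A : ℝ, 0 < A → ∀ g : ℕ → ℝ, (g = g₁ ∨ g = g₂) → ∃ (C : ℝ) (N₀ : ℕ), ∀ N : ℕ, N₀ ≤ N →
    F g N ≤ C * (N * Real.log N ^ (-A))

lemma sqf {g : ℕ → ℝ} (hg : g = g₁ ∨ g = g₂) (m : ℕ) (hm : ¬ Squarefree m) : g m = 0 := by
  rcases hg with rfl | rfl
  · unfold g₁; rw [ArithmeticFunction.moebius_eq_zero_of_not_squarefree hm]; simp
  · unfold g₂; rw [ArithmeticFunction.moebius_eq_zero_of_not_squarefree hm]; simp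

lemma gg_one (N : ℕ) : Pool.Agent.K3h95.LL.gg 1 0 N = g₁ := by
  funext m
  unfold Pool.Agent.K3h95.LL.gg Pool.Agent.K3h95.LL.hh Pool.Agent.K3h95.LL.mu g₁
  ring

lemma gg_two (N : ℕ) (hN : 1 ≤ N) : Pool.Agent.K3h95.LL.gg (Real.log N) 1 N = g₂ := by
  funext m
  unfold Pool.Agent.K3h95.LL.gg Pool.Agent.K3h95.LL.hh Pool.Agent.K3h95.LL.mu g₂
  rcases Nat.eq_zero_or_pos m with h | h
  · subst h; simp
  · rw [Real.log_div (by exact_mod_cast h.ne') (by exact_mod_cast (by omega : N ≠ 0))]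
    ring

lemma total_eq (g : ℕ → ℝ) (N : ℕ) (Q : ℝ) : Pool.Agent.K3h95.LL.BB g N Q = total g N Q := rfl

lemma loglog (c : ℝ) (hc : 0 < c) : ∃ N₀ : ℕ, ∀ N : ℕ, N₀ ≤ N → c * (1 + Real.log (Real.log N)) ≤ Real.log N := by
  have h1 := (Real.isLittleO_log_id_atTop.comp_tendsto Real.tendsto_log_atTop).def (c := 1 / (2 * c)) (by positivity)
  have h2 := Real.tendsto_log_atTop.eventually_ge_atTop (2 * c + 1)
  have h3 : ∀ᶠ x : ℝ in atTop, c * (1 + Real.log (Real.log x)) ≤ Real.log x := by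
    filter_upwards [h1, h2] with x hx hx2
    simp only [Function.comp, id, Real.norm_eq_abs] at hx
    have hl : 0 < Real.log x := by linarith
    rw [abs_of_pos hl] at hx
    have h4 := (le_abs_self _).trans hx
    have h5 := mul_le_mul_of_nonneg_left h4 hc.le
    have h6 : c * (1 / (2 * c) * Real.log x) = Real.log x / 2 := by field_simp
    linarith
  exact Pool.Agent.TH445.OI.evN _ h3

lemma low (B : ℕ) (hB : 2 ≤ B) : ∃ N₀ : ℕ, ∀ N : ℕ, N₀ ≤ N → ∀ g : ℕ → ℝ, (g = g₁ ∨ g = g₂) →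
    (N : ℝ) / Real.log N ^ (B + 5) ≤ disc g N (N / Real.log N ^ B) := by
  obtain ⟨N1, hN1, h1⟩ := Pool.Agent.K3h95.LL.BB_low B hB
  obtain ⟨N2, h2⟩ := Pool.Agent.K3h95.LL.BB_disc
  obtain ⟨N3, h3⟩ := Pool.Agent.TH445.OI.evN _ (Real.tendsto_log_atTop.eventually_ge_atTop 20)
  obtain ⟨N4, h4⟩ := Pool.Agent.TH445.OI.evN _ (Pool.Agent.TH445.OI.ev_pow (B + 2) 4 1 one_pos)
  obtain ⟨N5, h5⟩ := loglog (160000 * (B + 1)) (by positivity)
  refine ⟨N1 + N2 + N3 + N4 + N5, fun N hN g hg => ?_⟩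
  have hN0 : (0 : ℝ) < N := by exact_mod_cast (by omega : 0 < N)
  have g3 := h3 N (by omega)
  have g4 := h4 N (by omega)
  have g5 := h5 N (by omega)
  set L := Real.log N with hL
  have hL0 : 0 < L := by linarith
  have hL1 : 1 ≤ L := by linarith
  rw [Real.rpow_one] at g4
  have hll : 0 < Real.log L := Real.log_pos (by linarith)
  set ℓ := Real.log (L ^ (B + 1)) with hℓ
  have hℓe : ℓ = (B + 1) * Real.log L := by rw [hℓ, Real.log_pow]; push_cast; ring
  have hB0 : (0 : ℝ) ≤ B := Nat.cast_nonneg _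
  have hℓ0 : 0 < ℓ := by rw [hℓe]; positivity
  have hℓL : 160000 * ℓ + 160000 ≤ L := by
    rw [hℓe]
    nlinarith
  have hQ1 : 4 * L ^ 2 ≤ N / L ^ B := by
    rw [le_div_iff₀ (by positivity)]
    calc 4 * L ^ 2 * L ^ B = 4 * L ^ (B + 2) := by ring
      _ ≤ _ := g4
  have hQ2 : N / L ^ B ≤ N := div_le_self hN0.le (one_le_pow₀ hL1)
  have key : ∀ a b : ℝ, 1 ≤ a → a ≤ L → 0 ≤ b → b ≤ 1 → b * (4 + 6 * ℓ) ≤ a / 100 →
      Pool.Agent.K3h95.LL.gg a b N = g → (N : ℝ) / L ^ (B + 5) ≤ disc g N (N / L ^ B) := by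
    intro a b ha1 haL hb0 hb1 hab hgg
    have e1 := h1 N (by omega) a b ha1 haL hb0 hb1 hab
    rw [hgg] at e1
    have e2 := (h2 N (by omega) g (sqf hg) (N / L ^ B) hQ1 hQ2).1
    have e3 : (N : ℝ) / (16000 * L ^ B * ℓ) ≤ a * N / (16000 * L ^ B * ℓ) := by
      apply div_le_div_of_nonneg_right _ (by positivity)
      nlinarith
    have e4 : (N : ℝ) / (16000 * L ^ B * ℓ) ≤ 10 * L ^ 4 * disc g N (N / L ^ B) := e3.trans (e1.trans e2)
    rw [div_le_iff₀ (by positivity)] at e4 ⊢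
    have hD : 0 ≤ disc g N (N / L ^ B) := sum_nonneg fun _ _ => abs_nonneg _
    have e5 : 10 * L ^ 4 * disc g N (N / L ^ B) * (16000 * L ^ B * ℓ) =
        disc g N (N / L ^ B) * L ^ (B + 4) * (160000 * ℓ) := by
      have : L ^ (B + 4) = L ^ B * L ^ 4 := pow_add _ _ _
      rw [this]; ring
    rw [e5] at e4
    refine e4.trans ?_
    have : disc g N (N / L ^ B) * L ^ (B + 5) = disc g N (N / L ^ B) * L ^ (B + 4) * L := by
      rw [pow_succ]; ring
    rw [this]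
    exact mul_le_mul_of_nonneg_left (by linarith) (by positivity)
  rcases hg with h | h
  · exact key 1 0 le_rfl hL1 le_rfl zero_le_one (by norm_num) (by rw [gg_one, h])
  · exact key L 1 hL1 le_rfl zero_le_one le_rfl (by linarith) (by rw [hL, gg_two N (by omega), h])

lemma compare : ∃ N₀ : ℕ, ∀ N : ℕ, N₀ ≤ N → ∀ g : ℕ → ℝ, (g = g₁ ∨ g = g₂) → ∀ Q : ℝ, 4 * Real.log N ^ 2 ≤ Q → Q ≤ N →
    |twistedSum g 1 N| ≤ 4 * Real.log N ^ 2 * disc g N Q ∧
    total g N Q ≤ 10 * Real.log N ^ 4 * disc g N Q ∧ disc g N Q ≤ 3 * Real.log N ^ 2 * total g N Q := by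
  obtain ⟨N1, h1⟩ := Pool.Agent.K3h95.LL.one_le_disc
  obtain ⟨N2, h2⟩ := Pool.Agent.K3h95.LL.BB_disc
  refine ⟨N1 + N2, fun N hN g hg Q hQ hQN => ?_⟩
  have e1 := h1 N (by omega) g (sqf hg) Q hQ
  have e2 := h2 N (by omega) g (sqf hg) Q hQ hQN
  exact ⟨e1, e2.1, e2.2⟩

lemma level (θ : ℝ) (h0 : 0 < θ) (h1 : θ < 1) : ∃ N₀ : ℕ, ∀ N : ℕ, N₀ ≤ N → 1 ≤ Real.log N ∧
    4 * Real.log N ^ 2 ≤ (N : ℝ) ^ θ ∧ (N : ℝ) ^ θ ≤ N := by
  obtain ⟨N3, h3⟩ := Pool.Agent.TH445.OI.evN _ (Real.tendsto_log_atTop.eventually_ge_atTop 1)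
  obtain ⟨N4, h4⟩ := Pool.Agent.TH445.OI.evN _ (Pool.Agent.TH445.OI.ev_pow 2 4 θ h0)
  refine ⟨N3 + N4 + 1, fun N hN => ⟨h3 N (by omega), h4 N (by omega), ?_⟩⟩
  have hN1 : (1 : ℝ) ≤ N := by exact_mod_cast (by omega : 1 ≤ N)
  calc (N : ℝ) ^ θ ≤ (N : ℝ) ^ (1 : ℝ) := Real.rpow_le_rpow_of_exponent_le hN1 h1.le
    _ = N := Real.rpow_one _

/-- transfer with a loss of powers of the logarithm -/
lemma transfer (F G : (ℕ → ℝ) → ℕ → ℝ) (c : ℝ) (m : ℕ) (hc : 0 ≤ c) (N₀ : ℕ)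
    (h : ∀ N : ℕ, N₀ ≤ N → ∀ g : ℕ → ℝ, (g = g₁ ∨ g = g₂) → 1 ≤ Real.log N ∧ G g N ≤ c * Real.log N ^ m * F g N)
    (hF : Small F) : Small G := by
  intro A hA g hg
  obtain ⟨C, N1, h1⟩ := hF (A + m) (by positivity) g hg
  refine ⟨c * C, N₀ + N1, fun N hN => ?_⟩
  obtain ⟨hL1, h2⟩ := h N (by omega) g hg
  have h3 := h1 N (by omega)
  have hL0 : 0 < Real.log N := by linarith
  refine h2.trans ((mul_le_mul_of_nonneg_left h3 (by positivity)).trans (le_of_eq ?_))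
  have h4 : Real.log N ^ (-(A + m)) = Real.log N ^ (-A) * (Real.log N ^ m)⁻¹ := by
    rw [neg_add, Real.rpow_add hL0, Real.rpow_neg hL0.le (m : ℝ), Real.rpow_natCast]
  rw [h4]
  field_simp

/-- **Theorem.** (1) For every `B ≥ 2`, every sufficiently large `N` and both weights,
`D_g(N; N / (log N) ^ B) ≥ N / (log N) ^ (B + 5)`.
(2) For all sufficiently large `N`, both weights and all `4 (log N) ^ 2 ≤ Q ≤ N`: the twisted sum over all `n < N` is at most
`4 (log N) ^ 2 D_g(N; Q)`, and the sum over the moduli `q ≤ Q` coprime to `N` of the absolute values of the twisted sums and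
the discrepancy `D_g(N; Q)` are the same up to the factors `10 (log N) ^ 4` and `3 (log N) ^ 2`.
(3) For each `0 < θ < 1`, the statement dEH`(N ^ θ)` is equivalent to the statement without subtracted main terms, and it
implies that the twisted sum over all `n < N` is `O_A (N (log N) ^ (-A))` for every `A > 0`. -/
theorem result :
    (∀ B : ℕ, 2 ≤ B → ∃ N₀ : ℕ, ∀ N : ℕ, N₀ ≤ N → ∀ g : ℕ → ℝ, (g = g₁ ∨ g = g₂) →
      (N : ℝ) / Real.log N ^ (B + 5) ≤ disc g N (N / Real.log N ^ B)) ∧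
    (∃ N₀ : ℕ, ∀ N : ℕ, N₀ ≤ N → ∀ g : ℕ → ℝ, (g = g₁ ∨ g = g₂) → ∀ Q : ℝ, 4 * Real.log N ^ 2 ≤ Q → Q ≤ N →
      |twistedSum g 1 N| ≤ 4 * Real.log N ^ 2 * disc g N Q ∧
      total g N Q ≤ 10 * Real.log N ^ 4 * disc g N Q ∧ disc g N Q ≤ 3 * Real.log N ^ 2 * total g N Q) ∧
    (∀ θ : ℝ, 0 < θ → θ < 1 →
      (Small (fun g N => disc g N ((N : ℝ) ^ θ)) ↔ Small (fun g N => total g N ((N : ℝ) ^ θ))) ∧
      (Small (fun g N => disc g N ((N : ℝ) ^ θ)) → Small (fun g N => |twistedSum g 1 N|))) := by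
  obtain ⟨N1, h1⟩ := compare
  refine ⟨low, ⟨N1, h1⟩, fun θ h0 hθ1 => ?_⟩
  obtain ⟨N2, h2⟩ := level θ h0 hθ1
  refine ⟨⟨fun h => ?_, fun h => ?_⟩, fun h => ?_⟩
  · refine transfer _ _ 10 4 (by norm_num) (N1 + N2) (fun N hN g hg => ?_) h
    obtain ⟨e1, e2, e3⟩ := h2 N (by omega)
    exact ⟨e1, (h1 N (by omega) g hg _ e2 e3).2.1⟩
  · refine transfer _ _ 3 2 (by norm_num) (N1 + N2) (fun N hN g hg => ?_) h
    obtain ⟨e1, e2, e3⟩ := h2 N (by omega)
    exact ⟨e1, (h1 N (by omega) g hg _ e2 e3).2.2⟩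
  · refine transfer _ _ 4 2 (by norm_num) (N1 + N2) (fun N hN g hg => ?_) h
    obtain ⟨e1, e2, e3⟩ := h2 N (by omega)
    exact ⟨e1, (h1 N (by omega) g hg _ e2 e3).1⟩

end Pool.Agent.Results.MP_e9eb55_nt.LevelLimit
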