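import Mathlib
import Pool.Agent.Results.MP_e9eb55_nt.AlmostAllN
import Pool.Agent.K3h95.MS.C4

/-!
# A Barban-Davenport-Halberstam theorem for `Λ(n) μ(N - n)`, for almost all `N`

The twisted hypothesis of Huang and Li has the maximum over all reduced residue classes `a` modulo `q` and over all
`y ≤ N`; the diagonal conjecture of the problem is about the class `a = N` only. Here all residue classes are treated in
mean square: for almost all `N` the sum over all moduli `q ≤ N (log N) ^ (-B)` and over ALL residue classes `a` modulo `q` of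
the square of the maximum over `y ≤ N` of the sum of `β(n) Λ(n) g(N - n)` over `n < y`, `n ≡ a (mod q)`, is at most
`N ^ 2 (log N) ^ (-A)`, and the same is true for the discrepancies in the reduced classes. This is the strength of the theorem
of Barban, Davenport and Halberstam, with an explicit `B = A + 3 k + 24` if at most `X (log X) ^ (-k)` exceptional `N ≤ X` are
allowed.

Idea: the mean square over `N` is a mean of the product of the squares of two exponential sums; the sum over the classes to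
all moduli of the second one is a sum over the fractions in lowest terms. The fractions with small denominators are treated
with Davenport's bound for the first sum, the others with the large sieve inequality for the second one. The maxima are
treated with dyadic blocks.
-/

set_option autoImplicit false

namespace Pool.Agent.Results.MP_e9eb55_nt.ResidueClassesMeanSquare
open Finset
open AlmostAllN (g₁ g₂ one_le_log)

/-- the sum of `β(n) Λ(n) g(N - n)` over `1 ≤ n < y` with `n ≡ a (mod q)` (`0 ≤ a < q`) -/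
noncomputable def classSum (β g : ℕ → ℝ) (q a N y : ℕ) : ℝ :=
  ∑ n ∈ (Finset.Ico 1 y).filter (fun n => n % q = a), β n * ArithmeticFunction.vonMangoldt n * g (N - n)

/-- the sum over the moduli `1 ≤ q ≤ Q` and over all residue classes `a` modulo `q` of the square of the maximum over
`0 ≤ y ≤ N` of `|classSum β g q a N y|` -/
noncomputable def allClasses (β g : ℕ → ℝ) (N : ℕ) (Q : ℝ) : ℝ :=
  ∑ q ∈ Finset.Icc 1 ⌊Q⌋₊, ∑ a ∈ Finset.range q,
    ((Finset.range (N + 1)).sup' ⟨0, by simp⟩ (fun y => |classSum β g q a N y|)) ^ 2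

/-- the sum over the moduli `1 ≤ q ≤ Q` and over the reduced residue classes `a` modulo `q` of the square of the maximum
over `0 ≤ y ≤ N` of `|classSum β g q a N y - (1 / φ(q)) * classSum β g 1 0 N y|`; the second sum is the one over all
`1 ≤ n < y` -/
noncomputable def reducedClasses (β g : ℕ → ℝ) (N : ℕ) (Q : ℝ) : ℝ :=
  ∑ q ∈ Finset.Icc 1 ⌊Q⌋₊, ∑ a ∈ (Finset.range q).filter (fun a => a.Coprime q),
    ((Finset.range (N + 1)).sup' ⟨0, by simp⟩
      (fun y => |classSum β g q a N y - 1 / (Nat.totient q : ℝ) * classSum β g 1 0 N y|)) ^ 2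

open Classical in
/-- **A Barban-Davenport-Halberstam theorem for `Λ(n) μ(N - n)`.** For all `A`, `k` there is `X₀` such that for all
`X ≥ X₀` and all weights `β` with `|β(n)| ≤ 1`: for all `N ≤ X` with at most `X (log X) ^ (-k)` exceptions, and for both
weights `g` of the problem, the mean squares `allClasses` and `reducedClasses` with the moduli up to
`N (log N) ^ (-(A + 3 k + 24))` are at most `N ^ 2 (log N) ^ (-A)`. -/
theorem result (A k : ℕ) : ∃ X₀ : ℕ, ∀ X : ℕ, X₀ ≤ X → ∀ β : ℕ → ℝ, (∀ n, |β n| ≤ 1) →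
    (((Finset.Icc 1 X).filter (fun N : ℕ => ¬ ∀ g : ℕ → ℝ, (g = g₁ ∨ g = g₂) →
      allClasses β g N ((N : ℝ) / Real.log N ^ (A + 3 * k + 24)) ≤ (N : ℝ) ^ 2 / Real.log N ^ A ∧
      reducedClasses β g N ((N : ℝ) / Real.log N ^ (A + 3 * k + 24)) ≤
        (N : ℝ) ^ 2 / Real.log N ^ A)).card : ℝ) ≤ X / Real.log X ^ k := by
  obtain ⟨X0, hX0⟩ := Pool.Agent.K3h95.MS.few_bad A (k + 1)
  refine ⟨X0 + 8, fun X hX β hβ => ?_⟩
  have h1 := hX0 X (by omega) β g₁ hβ (Or.inl rfl)
  have h2 := hX0 X (by omega) β g₂ hβ (Or.inr rfl)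
  have hL := one_le_log (show 8 ≤ X by omega)
  have hk : A + 3 * (k + 1) + 21 = A + 3 * k + 24 := by ring
  rw [hk] at h1 h2
  have hsub : (Finset.Icc 1 X).filter (fun N : ℕ => ¬ ∀ g : ℕ → ℝ, (g = g₁ ∨ g = g₂) →
      allClasses β g N ((N : ℝ) / Real.log N ^ (A + 3 * k + 24)) ≤ (N : ℝ) ^ 2 / Real.log N ^ A ∧
      reducedClasses β g N ((N : ℝ) / Real.log N ^ (A + 3 * k + 24)) ≤ (N : ℝ) ^ 2 / Real.log N ^ A) ⊆
      (Finset.Icc 1 X).filter (fun N : ℕ =>
        ¬ (Pool.Agent.K3h95.MS.V β g₁ N ⌊(N : ℝ) / Real.log N ^ (A + 3 * k + 24)⌋₊ ≤ N ^ 2 / Real.log N ^ A ∧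
        Pool.Agent.K3h95.MS.W β g₁ N ⌊(N : ℝ) / Real.log N ^ (A + 3 * k + 24)⌋₊ ≤ N ^ 2 / Real.log N ^ A)) ∪
      (Finset.Icc 1 X).filter (fun N : ℕ =>
        ¬ (Pool.Agent.K3h95.MS.V β g₂ N ⌊(N : ℝ) / Real.log N ^ (A + 3 * k + 24)⌋₊ ≤ N ^ 2 / Real.log N ^ A ∧
        Pool.Agent.K3h95.MS.W β g₂ N ⌊(N : ℝ) / Real.log N ^ (A + 3 * k + 24)⌋₊ ≤ N ^ 2 / Real.log N ^ A)) := by
    intro N hN
    rw [mem_filter] at hN
    rw [mem_union, mem_filter, mem_filter]
    by_contra hcon
    push Not at hcon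
    apply hN.2
    rintro g (rfl | rfl)
    · exact ⟨(hcon.1 hN.1).1, (hcon.1 hN.1).2⟩
    · exact ⟨(hcon.2 hN.1).1, (hcon.2 hN.1).2⟩
  have h3 := (card_le_card hsub).trans (card_union_le _ _)
  have h4 : (((Finset.Icc 1 X).filter (fun N : ℕ => ¬ ∀ g : ℕ → ℝ, (g = g₁ ∨ g = g₂) →
      allClasses β g N ((N : ℝ) / Real.log N ^ (A + 3 * k + 24)) ≤ (N : ℝ) ^ 2 / Real.log N ^ A ∧
      reducedClasses β g N ((N : ℝ) / Real.log N ^ (A + 3 * k + 24)) ≤
        (N : ℝ) ^ 2 / Real.log N ^ A)).card : ℝ) ≤ X / Real.log X ^ (k + 1) + X / Real.log X ^ (k + 1) := by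
    refine le_trans ?_ (add_le_add h1 h2)
    exact_mod_cast h3
  refine h4.trans ?_
  have hX0' : (0 : ℝ) ≤ X := by positivity
  have h5 : (X : ℝ) / Real.log X ^ (k + 1) = X / Real.log X ^ k / Real.log X := by
    rw [pow_succ, div_div]
  have h6 : (X : ℝ) / Real.log X ^ k / Real.log X ≤ X / Real.log X ^ k / 2 :=
    div_le_div_of_nonneg_left (by positivity) (by norm_num) hL
  rw [h5]
  linarith

end Pool.Agent.Results.MP_e9eb55_nt.ResidueClassesMeanSquare
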